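import Pool.Agent.Results.MP_f2eb3d_co.CayleyExtremal
import Pool.Agent.Work.MP_f2eb3d_co.Old.WidthOne

/-! Check: the question of the problem is the instance `t = 1` of `CayleyExtremal`. -/

namespace Pool.Agent.Work.MP_f2eb3d_co.Hedge

open Pool.Agent.Work.MP_f2eb3d_co.Old

/-- A map onto the unit segment is a covector of width one. -/
theorem width_of_cayley {n : ℕ} {P : Set (Fin n → ℝ)} (h : IsCayley 1 P) :
    WidthOne.HasLatticeWidthOne P := by
  obtain ⟨A, c, h⟩ := h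
  have hb : ∀ x ∈ P, 0 ≤ pairing (A 0) x + c 0 ∧ pairing (A 0) x + c 0 ≤ 1 := fun x hx => by
    have hm : amap A c x ∈ axisSimplex fun _ : Fin 1 => (1 : ℝ) := h ▸ ⟨x, hx, rfl⟩
    have hc : Convex ℝ {y : Fin 1 → ℝ | y 0 ∈ Set.Icc (0 : ℝ) 1} :=
      (convex_Icc (0 : ℝ) 1).is_linear_preimage (f := fun y : Fin 1 → ℝ => y 0)
        ⟨fun _ _ => rfl, fun _ _ => rfl⟩
    refine convexHull_min ?_ hc hm
    rintro _ (rfl | ⟨i, rfl⟩)
    · exact ⟨le_rfl, zero_le_one⟩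
    · rw [Subsingleton.elim i 0]
      simp
  have h0 : (0 : Fin 1 → ℝ) ∈ amap A c '' P :=
    h ▸ subset_convexHull ℝ _ (Set.mem_insert _ _)
  have h1 : (Pi.single 0 1 : Fin 1 → ℝ) ∈ amap A c '' P :=
    h ▸ subset_convexHull ℝ _ (Set.mem_insert_of_mem _ ⟨0, rfl⟩)
  obtain ⟨x, hx, e0⟩ := h0
  obtain ⟨y, hy, e1⟩ := h1
  have e0' : pairing (A 0) x + c 0 = 0 := congrFun e0 0
  have e1' : pairing (A 0) y + c 0 = 1 := by simpa [amap] using congrFun e1 0
  refine ⟨A 0, fun hA => ?_, pairing (A 0) y, pairing (A 0) x, ⟨⟨y, hy, rfl⟩, ?_⟩,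
    ⟨⟨x, hx, rfl⟩, ?_⟩, by linarith⟩
  · rw [hA] at e0' e1'
    simp only [pairing, Pi.zero_apply, Int.cast_zero, zero_mul, Finset.sum_const_zero] at e0' e1'
    linarith
  · rintro _ ⟨z, hz, rfl⟩
    have := (hb z hz).2
    change pairing (A 0) z ≤ _
    linarith
  · rintro _ ⟨z, hz, rfl⟩
    have := (hb z hz).1
    change _ ≤ pairing (A 0) z
    linarith

/-- The question of the problem, for all `n ≥ 2`, from the instance `t = 1`. -/
theorem width_one_of_two_le (n : ℕ) (hn : 2 ≤ n) (P : Set (Fin n → ℝ))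
    (hP : WidthOne.IsLatticePolytope P) (hμ : ((n : ℝ) + 1) / 2 < WidthOne.qCodegree P) :
    WidthOne.HasLatticeWidthOne P := by
  by_contra hw
  have hc : ¬ IsCayley 1 P := fun h => hw (width_of_cayley h)
  have hμ' : ((n : ℝ) + 1) / 2 < qCodegree P := hμ
  have h : (((n : ℝ) + (1 : ℕ) - 1) / 2 < qCodegree P ∧ ¬ IsCayley 1 P) ↔
      (qCodegree P = ((n : ℝ) + (1 : ℕ)) / 2 ∧ ¬ IsCayley 1 P) :=
    (Pool.Agent.Results.MP_f2eb3d_co.CayleyExtremal.result n 1 le_rfl hn P hP _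
      (Or.inl rfl)).out 0 1
  have h1 := (h.1 ⟨by push_cast; linarith, hc⟩).1
  push_cast at h1
  linarith

/-- The former hand-in word for word; segments (`n = 1`) are simplices, a known case. -/
theorem width_one (n : ℕ) (hn : 1 ≤ n) (P : Set (Fin n → ℝ))
    (hP : WidthOne.IsLatticePolytope P) (hμ : ((n : ℝ) + 1) / 2 < WidthOne.qCodegree P) :
    WidthOne.HasLatticeWidthOne P := by
  rcases hn.eq_or_lt with rfl | h
  · exact WidthOne.result 1 le_rfl P hP hμ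
  · exact width_one_of_two_le n h P hP hμ

end Pool.Agent.Work.MP_f2eb3d_co.Hedge
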