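import Mathlib

/-! Lattice polytopes, their codegrees, Cayley structures and lattice equivalence. -/

namespace Pool.Agent.Work.MP_f2eb3d_co.Hedge

open Finset

/-- The value `⟨a, x⟩` of an integer covector `a` at a real point `x`. -/
def pairing {n : ℕ} (a : Fin n → ℤ) (x : Fin n → ℝ) : ℝ := ∑ i, (a i : ℝ) * x i

/-- An `n`-dimensional lattice polytope in `ℝⁿ`: the convex hull of finitely many points of `ℤⁿ`,
whose affine span is all of `ℝⁿ`. -/
def IsLatticePolytope {n : ℕ} (P : Set (Fin n → ℝ)) : Prop :=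
  (∃ V : Finset (Fin n → ℤ),
    P = convexHull ℝ ((fun (v : Fin n → ℤ) (i : Fin n) => (v i : ℝ)) '' (V : Set (Fin n → ℤ)))) ∧
  affineSpan ℝ P = ⊤

/-- `⟨a, x⟩ ≥ b` is a facet inequality of `P`: `a` is a primitive integer covector, `b` is an
integer, the inequality is valid on `P`, and the face it cuts out is nonempty of dimension
`n - 1`. -/
def IsFacetIneq {n : ℕ} (P : Set (Fin n → ℝ)) (a : Fin n → ℤ) (b : ℤ) : Prop :=
  Finset.univ.gcd a = 1 ∧ (∀ x ∈ P, (b : ℝ) ≤ pairing a x) ∧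
  {x ∈ P | pairing a x = b}.Nonempty ∧
  Module.finrank ℝ (vectorSpan ℝ {x ∈ P | pairing a x = b}) + 1 = n

/-- The adjoint polytope `P^(s)`: points of lattice distance at least `s` from every facet. -/
def adjoint {n : ℕ} (P : Set (Fin n → ℝ)) (s : ℝ) : Set (Fin n → ℝ) :=
  {x | ∀ (a : Fin n → ℤ) (b : ℤ), IsFacetIneq P a b → s ≤ pairing a x - b}

/-- The `ℚ`-codegree `μ(P) = (sup {s > 0 : P^(s) ≠ ∅})⁻¹`. -/
noncomputable def qCodegree {n : ℕ} (P : Set (Fin n → ℝ)) : ℝ :=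
  (sSup {s : ℝ | 0 < s ∧ (adjoint P s).Nonempty})⁻¹

/-- The Fine adjoint polytope: points of lattice distance at least `s` from every valid integral
inequality. -/
def fineAdjoint {n : ℕ} (P : Set (Fin n → ℝ)) (s : ℝ) : Set (Fin n → ℝ) :=
  {x | ∀ (a : Fin n → ℤ) (b : ℤ), a ≠ 0 → (∀ y ∈ P, (b : ℝ) ≤ pairing a y) →
    s ≤ pairing a x - b}

/-- The Fine `ℚ`-codegree. -/
noncomputable def fineCodegree {n : ℕ} (P : Set (Fin n → ℝ)) : ℝ :=
  (sSup {s : ℝ | 0 < s ∧ (fineAdjoint P s).Nonempty})⁻¹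

/-- The integral affine map `x ↦ A x + c`. -/
def amap {m n : ℕ} (A : Matrix (Fin m) (Fin n) ℤ) (c : Fin m → ℤ) (x : Fin n → ℝ) : Fin m → ℝ :=
  fun i => pairing (A i) x + c i

/-- The simplex `conv(0, r₁ e₁, …, r_m e_m)`. -/
def axisSimplex {m : ℕ} (r : Fin m → ℝ) : Set (Fin m → ℝ) :=
  convexHull ℝ (insert 0 (Set.range fun i => Pi.single i (r i)))

/-- Some integral affine map sends `P` onto `Δ_t = conv(0, e₁, …, e_t)`: `P` is a Cayley sum of
`t + 1` polytopes. -/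
def IsCayley {n : ℕ} (t : ℕ) (P : Set (Fin n → ℝ)) : Prop :=
  ∃ (A : Matrix (Fin t) (Fin n) ℤ) (c : Fin t → ℤ), amap A c '' P = axisSimplex fun _ => 1

/-- Some affine automorphism of `ℤⁿ` sends `P` onto `Q`. -/
def LatticeEquiv {n : ℕ} (P Q : Set (Fin n → ℝ)) : Prop :=
  ∃ (U : Matrix (Fin n) (Fin n) ℤ) (c : Fin n → ℤ), IsUnit U.det ∧ amap U c '' P = Q

/-- The `k`-fold lattice pyramid `conv(0, e₁, …, e_k, 2 e_{k+1}, …, 2 e_n)` over `2 Δ_{n-k}`. -/
def pyramid (n k : ℕ) : Set (Fin n → ℝ) :=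
  axisSimplex fun i : Fin n => if (i : ℕ) < k then 1 else 2

end Pool.Agent.Work.MP_f2eb3d_co.Hedge
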