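import Pool.Agent.Work.MP_f2eb3d_co.Hedge.Defs
import Mathlib

-- merged part: Pool.Agent.Work.MP_f2eb3d_co.Hedge.Cert
section
/-! Certificates for an empty Fine adjoint polytope. -/

namespace Pool.Agent.Work.MP_f2eb3d_co.Hedge

open Finset

variable {n : ℕ}

/-- Integral affine functionals. -/
abbrev Fn (n : ℕ) : Type := (Fin n → ℤ) × ℤ

/-- A lattice point as a real point. -/
def cs (v : Fin n → ℤ) : Fin n → ℝ := fun i => (v i : ℝ)

/-- The linear form of a covector. -/
def lin (a : Fin n → ℤ) : (Fin n → ℝ) →ₗ[ℝ] ℝ where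
  toFun := pairing a
  map_add' x y := by simp [pairing, mul_add, sum_add_distrib]
  map_smul' c x := by simp [pairing, mul_sum, mul_left_comm]

/-- The value at a real point. -/
def ev (f : Fn n) (x : Fin n → ℝ) : ℝ := pairing f.1 x + f.2

/-- The value at a lattice point. -/
def ez (f : Fn n) (v : Fin n → ℤ) : ℤ := ∑ i, f.1 i * v i + f.2

theorem ev_cs (f : Fn n) (v : Fin n → ℤ) : ev f (cs v) = ez f v := by
  simp [ev, ez, pairing, cs]

theorem ev_cont (f : Fn n) : Continuous (ev f) := by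
  unfold ev pairing
  fun_prop

/-- The affine form. -/
noncomputable def aff (f : Fn n) : (Fin n → ℝ) →ᵃ[ℝ] ℝ :=
  (lin f.1).toAffineMap + AffineMap.const ℝ _ (f.2 : ℝ)

theorem aff_apply (f : Fn n) (x : Fin n → ℝ) : aff f x = ev f x := rfl

/-- The polytope with a given set of vertices. -/
def Hull (V : Finset (Fin n → ℤ)) : Set (Fin n → ℝ) := convexHull ℝ (cs '' (V : Set (Fin n → ℤ)))

variable {V : Finset (Fin n → ℤ)}

theorem mem_hull {v : Fin n → ℤ} (hv : v ∈ V) : cs v ∈ Hull V :=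
  subset_convexHull ℝ _ ⟨v, hv, rfl⟩

theorem hull_le (g : (Fin n → ℝ) →ᵃ[ℝ] ℝ) (h : ∀ v ∈ V, 0 ≤ g (cs v)) {x : Fin n → ℝ}
    (hx : x ∈ Hull V) : 0 ≤ g x :=
  convexHull_min (t := g ⁻¹' Set.Ici 0) (by rintro _ ⟨v, hv, rfl⟩; exact h v hv)
    ((convex_Ici 0).affine_preimage g) hx

theorem hull_zero (hV : affineSpan ℝ (Hull V) = ⊤) (g : (Fin n → ℝ) →ᵃ[ℝ] ℝ)
    (h : ∀ v ∈ V, g (cs v) = 0) (x : Fin n → ℝ) : g x = 0 := by
  rw [Hull, affineSpan_convexHull] at hV
  have e : g = 0 := AffineMap.ext_on hV (by rintro _ ⟨v, hv, rfl⟩; exact h v hv)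
  rw [e]
  rfl

theorem sum_aff {ι : Type} (s : Finset ι) (c : ι → ℝ) (d : ι → Fn n) (x : Fin n → ℝ) :
    (∑ i ∈ s, c i • aff (d i)) x = ∑ i ∈ s, c i * ev (d i) x := by
  classical
  induction s using Finset.induction_on with
  | empty => simp
  | insert a s ha ih => rw [sum_insert ha, sum_insert ha, ← ih]; rfl

theorem exists_pos (hV : affineSpan ℝ (Hull V) = ⊤) {f : Fn n} (hf : f.1 ≠ 0)
    (h : ∀ v ∈ V, 0 ≤ ez f v) : ∃ v ∈ V, 1 ≤ ez f v := by
  by_contra hc
  push Not at hc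
  have e := hull_zero hV (aff f) fun v hv => by
    rw [aff_apply, ev_cs, show ez f v = 0 by have := h v hv; have := hc v hv; omega, Int.cast_zero]
  refine hf (funext fun i => ?_)
  have e1 := e (Pi.single i 1)
  have e0 := e 0
  simp only [aff_apply, ev, pairing, Pi.zero_apply, mul_zero, sum_const_zero, zero_add] at e0 e1
  rw [e0, add_zero, sum_eq_single i (fun j _ hj => by simp [hj]) (by simp)] at e1
  simpa using e1

theorem farkas {ι : Type} [Fintype ι] (d : ι → Fn n) {s s' : ℝ} (hs : s < s')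
    (h : ¬ ∃ x, ∀ i, s ≤ ev (d i) x) :
    ∃ (l : ι → ℝ) (c : ℝ), (∀ i, 0 ≤ l i) ∧ (∀ x, ∑ i, l i * ev (d i) x = c) ∧
      c < s' * ∑ i, l i := by
  classical
  let L : (Fin n → ℝ) →ₗ[ℝ] (ι → ℝ) := LinearMap.pi fun i => lin (d i).1
  have hopen : IsOpen {y : ι → ℝ | ∀ i, s - (d i).2 < y i} := by
    rw [Set.ofPred_forall]
    exact isOpen_iInter_of_finite fun i => isOpen_lt continuous_const (continuous_apply i)
  have hconv : Convex ℝ {y : ι → ℝ | ∀ i, s - (d i).2 < y i} := by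
    rw [Set.ofPred_forall]
    exact convex_iInter fun i => (convex_Ioi _).linear_preimage (LinearMap.proj i)
  obtain ⟨f, u, h1, h2⟩ := geometric_hahn_banach_open hconv hopen (LinearMap.range L).convex (by
    rw [Set.disjoint_left]
    rintro _ hy ⟨x, rfl⟩
    refine h ⟨x, fun i => ?_⟩
    have : s - (d i).2 < pairing (d i).1 x := hy i
    unfold ev
    linarith)
  have hf : ∀ y : ι → ℝ, f y = ∑ i, y i * f (Pi.single i 1) := fun y => by
    conv_lhs => rw [pi_eq_sum_univ' y]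
    simp
  have hu : u ≤ 0 := by simpa using h2 0 (zero_mem _)
  have hL : ∀ x, f (L x) = 0 := fun x => by
    by_contra hc
    have := h2 (L (((u - 1) / f (L x)) • x)) ⟨_, rfl⟩
    rw [map_smul, map_smul, smul_eq_mul, div_mul_cancel₀ _ hc] at this
    linarith
  have hb : ∀ i, s - (d i).2 < s' - (d i).2 := fun i => by linarith
  have hn : ∀ i, f (Pi.single i 1) ≤ 0 := fun i => by
    by_contra hc
    push Not at hc
    have h3 := h1 _ hb
    have h4 := h1 ((fun i => s' - (d i).2) +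
      ((u - f fun i => s' - (d i).2) / f (Pi.single i 1)) • Pi.single i 1) fun j => by
        have : 0 ≤ ((u - f fun i => s' - (d i).2) / f (Pi.single i 1)) *
            (Pi.single i 1 : ι → ℝ) j :=
          mul_nonneg (div_nonneg (by linarith) hc.le)
            (by rw [Pi.single_apply]; split_ifs <;> norm_num)
        have := hb j
        simp only [Pi.add_apply, Pi.smul_apply, smul_eq_mul]
        linarith
    rw [map_add, map_smul, smul_eq_mul, div_mul_cancel₀ _ hc.ne'] at h4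
    linarith
  refine ⟨fun i => -f (Pi.single i 1), -∑ i, (d i).2 * f (Pi.single i 1),
    fun i => neg_nonneg.2 (hn i), fun x => ?_, ?_⟩
  · have e := hL x
    rw [hf] at e
    rw [← sum_neg_distrib, ← sub_eq_zero, ← sum_sub_distrib, ← neg_eq_zero, ← sum_neg_distrib, ← e]
    refine sum_congr rfl fun i _ => ?_
    have : L x i = pairing (d i).1 x := rfl
    rw [this, ev]
    ring
  · have h3 := h1 _ hb
    rw [hf] at h3
    simp only [sub_mul, sum_sub_distrib, ← mul_sum] at h3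
    rw [sum_neg_distrib]
    linarith

/-- A positive relation with linearly independent support. -/
theorem minimal (hV : affineSpan ℝ (Hull V) = ⊤) {ι : Type} [DecidableEq ι] (d : ι → Fn n)
    (hd : ∀ i, (d i).1 ≠ 0) (h0 : ∀ i, ∀ v ∈ V, 0 ≤ ez (d i) v) (θ : ℝ) (k : ℕ) :
    ∀ (I : Finset ι) (ν : ι → ℝ), I.card = k → (∀ i ∈ I, 0 ≤ ν i) →
      (∀ x, ∑ i ∈ I, ν i * ev (d i) x = 1) → θ < ∑ i ∈ I, ν i →
      ∃ (J : Finset ι) (ν' : ι → ℝ), (∀ i ∈ J, 0 < ν' i) ∧
        (∀ x, ∑ i ∈ J, ν' i * ev (d i) x = 1) ∧ θ < ∑ i ∈ J, ν' i ∧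
        ∀ c : ι → ℝ, (∀ x, ∑ i ∈ J, c i * ev (d i) x = 0) → ∀ i ∈ J, c i = 0 := by
  induction k using Nat.strong_induction_on with
  | _ k ih =>
  intro I ν hI h1 h2 h3
  have drop : ∀ (μ : ι → ℝ) (a : ι), a ∈ I → μ a = 0 → (∀ i ∈ I, 0 ≤ μ i) →
      (∀ x, ∑ i ∈ I, μ i * ev (d i) x = 1) → θ < ∑ i ∈ I, μ i →
      ∃ (J : Finset ι) (ν' : ι → ℝ), (∀ i ∈ J, 0 < ν' i) ∧
        (∀ x, ∑ i ∈ J, ν' i * ev (d i) x = 1) ∧ θ < ∑ i ∈ J, ν' i ∧
        ∀ c : ι → ℝ, (∀ x, ∑ i ∈ J, c i * ev (d i) x = 0) → ∀ i ∈ J, c i = 0 := by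
    intro μ a ha hμ g1 g2 g3
    refine ih _ (hI ▸ card_erase_lt_of_mem ha) (I.erase a) μ rfl
      (fun i hi => g1 i (mem_of_mem_erase hi)) (fun x => ?_) ?_
    · rw [sum_erase _ (by rw [hμ, zero_mul]), g2]
    · rwa [sum_erase _ hμ]
  by_cases hz : ∃ a ∈ I, ν a = 0
  · obtain ⟨a, ha, h⟩ := hz
    exact drop ν a ha h h1 h2 h3
  have hp : ∀ i ∈ I, 0 < ν i := fun i hi => (h1 i hi).lt_of_ne fun h => hz ⟨i, hi, h.symm⟩
  by_cases hl : ∀ c : ι → ℝ, (∀ x, ∑ i ∈ I, c i * ev (d i) x = 0) → ∀ i ∈ I, c i = 0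
  · exact ⟨I, ν, hp, h2, h3, hl⟩
  obtain ⟨c, c1, c2, c3⟩ : ∃ c : ι → ℝ, (∀ x, ∑ i ∈ I, c i * ev (d i) x = 0) ∧
      (∃ i ∈ I, c i ≠ 0) ∧ ∑ i ∈ I, c i ≤ 0 := by
    push Not at hl
    obtain ⟨c, c1, i, hi, c2⟩ := hl
    rcases le_total (∑ i ∈ I, c i) 0 with h | h
    · exact ⟨c, c1, ⟨i, hi, c2⟩, h⟩
    · refine ⟨fun i => -c i, fun x => ?_, ⟨i, hi, neg_ne_zero.2 c2⟩, ?_⟩
      · simp only [neg_mul, sum_neg_distrib, c1, neg_zero]
      · rw [sum_neg_distrib]
        linarith
  have c4 : (I.filter fun i => 0 < c i).Nonempty := by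
    by_contra hc
    have c5 : ∀ i ∈ I, c i ≤ 0 := fun i hi => not_lt.1 fun h => hc ⟨i, mem_filter.2 ⟨hi, h⟩⟩
    obtain ⟨i, hi, c2⟩ := c2
    obtain ⟨v, hv, h⟩ := exists_pos hV (hd i) (h0 i)
    have e := (sum_eq_zero_iff_of_nonpos fun j hj => mul_nonpos_of_nonpos_of_nonneg (c5 j hj)
      (by rw [ev_cs]; exact_mod_cast h0 j v hv)).1 (c1 (cs v)) i hi
    rw [ev_cs] at e
    rcases mul_eq_zero.1 e with e | e
    · exact c2 e
    · have : ez (d i) v = 0 := by exact_mod_cast e
      omega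
  obtain ⟨a, ha, hmin⟩ := exists_min_image _ (fun i => ν i / c i) c4
  obtain ⟨ha1, ha2⟩ := mem_filter.1 ha
  have hκ : 0 ≤ ν a / c a := div_nonneg (h1 a ha1) ha2.le
  refine drop (fun i => ν i - ν a / c a * c i) a ha1 (by rw [div_mul_cancel₀ _ ha2.ne', sub_self])
    (fun i hi => ?_) (fun x => ?_) ?_
  · rcases lt_or_ge 0 (c i) with h | h
    · exact sub_nonneg.2 ((le_div_iff₀ h).1 (hmin i (mem_filter.2 ⟨hi, h⟩)))
    · have := mul_nonpos_of_nonneg_of_nonpos hκ h
      have := h1 i hi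
      linarith
  · simp only [sub_mul, mul_assoc, sum_sub_distrib, ← mul_sum, c1, h2, mul_zero, sub_zero]
  · rw [sum_sub_distrib, ← mul_sum]
    have := mul_nonpos_of_nonneg_of_nonpos hκ c3
    linarith

theorem card_le {ι : Type} (J : Finset ι) (d : ι → Fn n)
    (h : ∀ c : ι → ℝ, (∀ x, ∑ i ∈ J, c i * ev (d i) x = 0) → ∀ i ∈ J, c i = 0) :
    J.card ≤ n + 1 := by
  classical
  have li : LinearIndependent ℝ fun i : J => ((cs (d i).1, ((d i).2 : ℝ)) : (Fin n → ℝ) × ℝ) := by
    rw [Fintype.linearIndependent_iff]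
    intro g hg i
    have e := h (fun j => if hj : j ∈ J then g ⟨j, hj⟩ else 0) (fun x => by
      rw [← sum_coe_sort]
      have e1 := congrArg Prod.fst hg
      have e2 := congrArg Prod.snd hg
      simp only [Prod.fst_sum, Prod.snd_sum, Prod.smul_fst, Prod.smul_snd, smul_eq_mul,
        Prod.fst_zero, Prod.snd_zero] at e1 e2
      simp only [coe_mem, dif_pos, Subtype.coe_eta, ev, mul_add, sum_add_distrib, e2, add_zero,
        pairing, mul_sum]
      rw [sum_comm]
      refine sum_eq_zero fun k _ => ?_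
      have e3 := congrFun e1 k
      simp only [Finset.sum_apply, Pi.smul_apply, smul_eq_mul, cs, Pi.zero_apply] at e3
      simp only [← mul_assoc, ← sum_mul, e3, zero_mul]) i i.2
    simpa using e
  simpa using li.fintype_card_le_finrank

/-- The certificate. -/
theorem cert (hV : affineSpan ℝ (Hull V) = ⊤) {s θ : ℝ} (hs : 0 ≤ s) (hθ : 0 < θ)
    (h : s < θ⁻¹) (he : ¬ (fineAdjoint (Hull V) s).Nonempty) :
    ∃ (J : Finset (Fn n)) (ν : Fn n → ℝ), (∀ f ∈ J, f.1 ≠ 0 ∧ ∀ v ∈ V, 0 ≤ ez f v) ∧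
      (∀ f ∈ J, 0 < ν f) ∧ (∀ x, ∑ f ∈ J, ν f * ev f x = 1) ∧ θ < ∑ f ∈ J, ν f ∧
      ∀ c : Fn n → ℝ, (∀ x, ∑ f ∈ J, c f * ev f x = 0) → ∀ f ∈ J, c f = 0 := by
  classical
  let G := {f : Fn n // f.1 ≠ 0 ∧ ∀ v ∈ V, 0 ≤ ez f v}
  obtain ⟨B, hB⟩ : ∃ B : ℤ, ∀ v ∈ V, ∀ i, |v i| ≤ B :=
    ⟨∑ v ∈ V, ∑ i, |v i|, fun v hv i => (single_le_sum (f := fun i => |v i|)
      (fun _ _ => abs_nonneg _) (mem_univ i)).trans
        (single_le_sum (f := fun v : Fin n → ℤ => ∑ i, |v i|)
        (fun _ _ => sum_nonneg fun _ _ => abs_nonneg _) hv)⟩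
  obtain ⟨u, hu⟩ := (isCompact_Icc (a := fun _ : Fin n => -(B : ℝ))
    (b := fun _ => (B : ℝ))).elim_finite_subfamily_closed (fun f : G => {x | s ≤ ev f.1 x})
    (fun f => isClosed_le continuous_const (ev_cont _)) (by
      refine Set.eq_empty_of_forall_notMem fun x hx => he ⟨x, fun a b ha hb => ?_⟩
      have := Set.mem_iInter.1 hx.2 ⟨(a, -b), ha, fun v hv => by
        have h1 := hb _ (mem_hull hv)
        have h2 := ev_cs (a, -b) v
        simp only [ev, Int.cast_neg] at h2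
        exact_mod_cast (by linarith : (0 : ℝ) ≤ ez (a, -b) v)⟩
      simpa [ev, sub_eq_add_neg] using this)
  have g1 : ∀ (i : Fin n) (ε : ℤ), ε = 1 ∨ ε = -1 → ((Pi.single i ε, B) : Fn n).1 ≠ 0 ∧
      ∀ v ∈ V, 0 ≤ ez (Pi.single i ε, B) v := fun i ε hε => ⟨fun h => by
        have := congrFun h i
        simp at this
        omega, fun v hv => by
        have := abs_le.1 (hB v hv i)
        simp only [ez]
        rw [sum_eq_single i (fun j _ hj => by simp [hj]) (by simp)]
        rcases hε with rfl | rfl <;> simp <;> omega⟩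
  let w : Finset G := u ∪ (univ.image fun i => ⟨_, g1 i 1 (Or.inl rfl)⟩) ∪
    univ.image fun i => ⟨_, g1 i (-1) (Or.inr rfl)⟩
  obtain ⟨l, c, l0, l1, l2⟩ := farkas (fun f : w => f.1.1) h (by
    rintro ⟨x, hx⟩
    have e : ∀ (i : Fin n) (ε : ℤ), ev (Pi.single i ε, B) x = ε * x i + B := fun i ε => by
      simp only [ev, pairing]
      rw [sum_eq_single i (fun j _ hj => by simp [hj]) (by simp)]
      simp
    refine Set.eq_empty_iff_forall_notMem.1 hu x ⟨⟨fun i => ?_, fun i => ?_⟩, ?_⟩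
    · have := hx ⟨⟨_, g1 i 1 (Or.inl rfl)⟩,
        mem_union_left _ (mem_union_right _ (mem_image_of_mem _ (mem_univ i)))⟩
      simp only [e] at this
      push_cast at this
      linarith
    · have := hx ⟨⟨_, g1 i (-1) (Or.inr rfl)⟩, mem_union_right _ (mem_image_of_mem _ (mem_univ i))⟩
      simp only [e] at this
      push_cast at this
      linarith
    · exact Set.mem_iInter₂.2 fun f hf => hx ⟨f, mem_union_left _ (mem_union_left _ hf)⟩)
  have hc : 0 < c := by
    by_contra hc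
    have z : ∀ i, l i = 0 := fun i => by
      obtain ⟨v, hv, h1⟩ := exists_pos hV i.1.2.1 i.1.2.2
      have a1 := single_le_sum (f := fun j : w => l j * ev j.1.1 (cs v)) (fun j _ =>
        mul_nonneg (l0 j) (by rw [ev_cs]; exact_mod_cast j.1.2.2 v hv)) (mem_univ i)
      rw [l1, ev_cs] at a1
      have a2 : (1 : ℝ) ≤ ez i.1.1 v := by exact_mod_cast h1
      have := l0 i
      nlinarith
    have := l1 0
    simp only [z, zero_mul, sum_const_zero, mul_zero] at this l2
    linarith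
  obtain ⟨J, ν, j1, j2, j3, j4⟩ := minimal hV (fun f : w => f.1.1) (fun f => f.1.2.1)
    (fun f => f.1.2.2) θ _ univ (fun i => l i / c) rfl (fun i _ => div_nonneg (l0 i) hc.le)
    (fun x => by simp only [div_mul_eq_mul_div, ← sum_div, l1, div_self hc.ne'])
    (by rw [← sum_div, lt_div_iff₀ hc]; rwa [lt_inv_mul_iff₀ hθ] at l2)
  have inj : Function.Injective fun f : w => f.1.1 :=
    Subtype.val_injective.comp Subtype.val_injective
  have ex : ∀ f : w, Function.extend (fun f : w => f.1.1) ν 0 f.1.1 = ν f := fun f =>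
    inj.extend_apply ν 0 f
  refine ⟨J.image fun f => f.1.1, Function.extend (fun f : w => f.1.1) ν 0, ?_, ?_, fun x => ?_,
    ?_, fun c hc => ?_⟩
  · exact forall_mem_image.2 fun f _ => f.1.2
  · exact forall_mem_image.2 fun f hf => by rw [ex]; exact j1 f hf
  · rw [sum_image inj.injOn]
    simp only [ex, j2]
  · rw [sum_image inj.injOn]
    simpa only [ex] using j3
  · exact forall_mem_image.2 (j4 (fun f => c f.1.1) fun x => by
      have := hc x
      rwa [sum_image inj.injOn] at this)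

end Pool.Agent.Work.MP_f2eb3d_co.Hedge
end

-- merged part: Pool.Agent.Work.MP_f2eb3d_co.Hedge.Geo
section
/-! Images of lattice polytopes under integral affine maps. -/

namespace Pool.Agent.Work.MP_f2eb3d_co.Hedge

open Finset

variable {n : ℕ} {V : Finset (Fin n → ℤ)}

theorem mem_axis {m : ℕ} {r : Fin m → ℝ} (hr : ∀ i, 0 < r i) {y : Fin m → ℝ} :
    y ∈ axisSimplex r ↔ (∀ i, 0 ≤ y i) ∧ ∑ i, y i / r i ≤ 1 := by
  constructor
  · refine fun h => convexHull_min
      (t := {y : Fin m → ℝ | (∀ i, 0 ≤ y i) ∧ ∑ i, y i / r i ≤ 1}) ?_ ?_ h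
    · rintro _ (rfl | ⟨i, rfl⟩)
      · exact ⟨fun _ => le_rfl, by simp⟩
      · refine ⟨fun j => ?_, ?_⟩
        · simp only [Pi.single_apply]
          split_ifs
          · exact (hr i).le
          · exact le_rfl
        · rw [sum_eq_single i (fun j _ hj => by simp [hj]) (by simp)]
          simp [(hr i).ne']
    · rintro x ⟨x0, x1⟩ y ⟨y0, y1⟩ a b ha hb hab
      refine ⟨fun i => add_nonneg (mul_nonneg ha (x0 i)) (mul_nonneg hb (y0 i)), ?_⟩
      simp only [Pi.add_apply, Pi.smul_apply, smul_eq_mul, add_div, mul_div_assoc,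
        sum_add_distrib, ← mul_sum]
      nlinarith
  · rintro ⟨h0, h1⟩
    refine mem_convexHull_of_exists_fintype (ι := Option (Fin m))
      (fun o => o.elim (1 - ∑ i, y i / r i) fun i => y i / r i)
      (fun o => o.elim 0 fun i => Pi.single i (r i)) ?_ ?_ ?_ ?_
    · rintro (_ | i)
      · exact sub_nonneg.2 h1
      · exact div_nonneg (h0 i) (hr i).le
    · simp [Fintype.sum_option]
    · rintro (_ | i)
      · exact Set.mem_insert _ _
      · exact Set.mem_insert_of_mem _ ⟨i, rfl⟩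
    · funext j
      rw [Fintype.sum_option]
      simp only [Option.elim_none, Option.elim_some, smul_zero, zero_add,
        Finset.sum_apply, Pi.smul_apply, smul_eq_mul]
      rw [sum_eq_single j (fun i _ hi => by simp [hi.symm]) (by simp)]
      simp [(hr j).ne']

/-- The affine map of an integral matrix and vector. -/
noncomputable def amapA {m : ℕ} (A : Matrix (Fin m) (Fin n) ℤ) (c : Fin m → ℤ) :
    (Fin n → ℝ) →ᵃ[ℝ] (Fin m → ℝ) := AffineMap.pi fun i => aff (A i, c i)

theorem amapA_coe {m : ℕ} (A : Matrix (Fin m) (Fin n) ℤ) (c : Fin m → ℤ) :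
    ⇑(amapA A c) = amap A c := rfl

theorem amap_cs {m : ℕ} (A : Matrix (Fin m) (Fin n) ℤ) (c : Fin m → ℤ) (v : Fin n → ℤ)
    (i : Fin m) : amap A c (cs v) i = ez (A i, c i) v := ev_cs (A i, c i) v

theorem img {m : ℕ} (F : Fin m → Fn n) (r : Fin m → ℝ) (hr : ∀ i, 0 < r i)
    (h0 : ∀ v ∈ V, ∀ i, 0 ≤ ez (F i) v) (h1 : ∀ v ∈ V, ∑ i, (ez (F i) v : ℝ) / r i ≤ 1)
    (h2 : ∃ p ∈ V, ∀ i, ez (F i) p = 0)
    (h3 : ∀ i, ∃ p ∈ V, ∀ j, (ez (F j) p : ℝ) = (Pi.single i (r i) : Fin m → ℝ) j) :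
    amap (Matrix.of fun i => (F i).1) (fun i => (F i).2) '' Hull V = axisSimplex r := by
  have e : ∀ v i, amap (Matrix.of fun i => (F i).1) (fun i => (F i).2) (cs v) i = ez (F i) v :=
    fun v i => amap_cs _ _ v i
  rw [← amapA_coe, Hull, AffineMap.image_convexHull, amapA_coe]
  refine Set.Subset.antisymm (convexHull_min ?_ (convex_convexHull ℝ _)) (convexHull_mono ?_)
  · rintro _ ⟨_, ⟨v, hv, rfl⟩, rfl⟩
    refine (mem_axis hr).2 ⟨fun i => ?_, ?_⟩
    · rw [e]
      exact_mod_cast h0 v hv i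
    · simpa only [e] using h1 v hv
  · rintro _ (rfl | ⟨i, rfl⟩)
    · obtain ⟨p, hp, h⟩ := h2
      exact ⟨_, ⟨p, hp, rfl⟩, funext fun i => by rw [e, h]; simp⟩
    · obtain ⟨p, hp, h⟩ := h3 i
      exact ⟨_, ⟨p, hp, rfl⟩, funext fun j => by rw [e, h]⟩

theorem pick {κ : Type} [Fintype κ] [DecidableEq κ] (w y : κ → ℤ) (hw : ∀ i, 0 < w i)
    (h0 : ∀ i, 0 ≤ y i) {M a : ℤ} (h1 : ∑ i, w i * y i ≤ M) {i : κ} (ha : w i * a = M)
    (h : a ≤ y i) (j : κ) : y j = if j = i then a else 0 := by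
  have nn : ∀ k ∈ (univ : Finset κ), 0 ≤ w k * y k := fun k _ => mul_nonneg (hw k).le (h0 k)
  have hi := hw i
  split_ifs with hj
  · have := single_le_sum nn (mem_univ i)
    rw [hj]
    nlinarith
  · have := add_le_sum nn (mem_univ j) (mem_univ i) hj
    have := hw j
    have := h0 j
    nlinarith

theorem cay {κ : Type} [Fintype κ] {t : ℕ} (hκ : Fintype.card κ = t) (F : κ → Fn n)
    (h0 : ∀ v ∈ V, ∀ i, 0 ≤ ez (F i) v) (h1 : ∀ v ∈ V, ∑ i, ez (F i) v ≤ 1)
    (h2 : ∃ v ∈ V, ∑ i, ez (F i) v < 1) (h3 : ∀ i, ∃ v ∈ V, 1 ≤ ez (F i) v) :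
    IsCayley t (Hull V) := by
  classical
  let e := (Fintype.equivFinOfCardEq hκ).symm
  refine ⟨_, _, img (fun i => F (e i)) _ (fun _ => one_pos) (fun v hv i => h0 v hv _)
    (fun v hv => ?_) ?_ fun i => ?_⟩
  · simp only [div_one]
    rw [e.sum_comp fun i => (ez (F i) v : ℝ)]
    exact_mod_cast h1 v hv
  · obtain ⟨v, hv, h⟩ := h2
    refine ⟨v, hv, fun i => (sum_eq_zero_iff_of_nonneg fun j _ => h0 v hv j).1 ?_ _ (mem_univ _)⟩
    have := sum_nonneg fun j (_ : j ∈ univ) => h0 v hv j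
    omega
  · obtain ⟨v, hv, h⟩ := h3 (e i)
    refine ⟨v, hv, fun j => ?_⟩
    rw [pick (fun _ => 1) (fun i => ez (F i) v) (fun _ => one_pos) (h0 v hv)
      (by simpa using h1 v hv) (one_mul 1) h (e j), Pi.single_apply]
    simp

/-- Evaluation at a lattice point is additive. -/
def ezl (v : Fin n → ℤ) : Fn n →ₗ[ℤ] ℤ where
  toFun f := ez f v
  map_add' f g := by simp only [ez, Prod.fst_add, Prod.snd_add, Pi.add_apply, add_mul,
    sum_add_distrib]; ring
  map_smul' c f := by simp only [ez, Prod.smul_fst, Prod.smul_snd, Pi.smul_apply, smul_eq_mul,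
    mul_assoc, ← mul_sum, RingHom.id_apply]; ring

theorem ezl_apply (v : Fin n → ℤ) (f : Fn n) : ezl v f = ez f v := rfl

theorem parity {α β : Type} [Fintype α] [Fintype β] {k : ℕ} (hα : Fintype.card α = k)
    (hβ : k + Fintype.card β = n) (F : α ⊕ β → Fn n) (h0 : ∀ v ∈ V, ∀ i, 0 ≤ ez (F i) v)
    (h1 : ∀ v ∈ V, 2 * ∑ a, ez (F (Sum.inl a)) v + ∑ b, ez (F (Sum.inr b)) v ≤ 2)
    (h2 : ∃ p ∈ V, ∀ i, ez (F i) p = 0) (h3 : ∀ a, ∃ p ∈ V, 1 ≤ ez (F (Sum.inl a)) p)
    (h4 : ∀ b, ∃ p ∈ V, 2 ≤ ez (F (Sum.inr b)) p) :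
    IsCayley (k + 1) (Hull V) ∨ LatticeEquiv (Hull V) (pyramid n k) := by
  classical
  let e : α ⊕ β ≃ Fin n := ((Fintype.equivFinOfCardEq hα).sumCongr (Fintype.equivFin β)).trans
    (finSumFinEquiv.trans (finCongr hβ))
  let w : α ⊕ β → ℤ := Sum.elim (fun _ => 1) fun _ => 2
  have ew : ∀ i, (if ((e i : Fin n) : ℕ) < k then (1 : ℝ) else 2) = w i := by
    rintro (a | b)
    · rw [if_pos (by simp [e])]
      simp [w]
    · rw [if_neg (by simp [e])]
      simp [w]
  have hp : ∀ i, ∃ p ∈ V, ∀ j, ez (F j) p = if j = i then w i else 0 := by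
    intro i
    obtain ⟨p, hp, h⟩ : ∃ p ∈ V, w i ≤ ez (F i) p := by
      rcases i with a | b
      · exact h3 a
      · exact h4 b
    refine ⟨p, hp, pick (Sum.elim (fun _ => 2) fun _ => 1) (fun i => ez (F i) p)
      (by rintro (a | b) <;> simp) (h0 p hp) (M := 2) ?_ (by rcases i with a | b <;> simp [w]) h⟩
    simpa [Fintype.sum_sum_type, mul_sum] using h1 p hp
  choose p pV hp using hp
  obtain ⟨q, qV, hq⟩ := h2
  have lin : ∀ i v, ez (F i) v = ∑ j, (F i).1 j * (v j - q j) := fun i v => by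
    have := hq i
    simp only [ez, mul_sub, sum_sub_distrib] at this ⊢
    omega
  let U : Matrix (Fin n) (Fin n) ℤ := Matrix.of fun i => (F (e.symm i)).1
  rcases Int.even_or_odd U.det with hU | ⟨m, hU⟩
  · left
    have hd : (U.map (Int.castRingHom (ZMod 2))).det = 0 := by
      rw [← RingHom.mapMatrix_apply, ← RingHom.map_det]
      exact (ZMod.intCast_zmod_eq_zero_iff_dvd _ 2).2 (even_iff_two_dvd.1 hU)
    obtain ⟨c, c0, hc⟩ := Matrix.exists_vecMul_eq_zero_iff.2 hd
    let z : α ⊕ β → ℤ := fun i => (c (e i)).val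
    have z0 : ∀ i, 0 ≤ z i := fun i => Int.natCast_nonneg _
    have z1 : ∀ i, z i ≤ 1 := fun i => by
      have := ZMod.val_lt (c (e i))
      simp only [z]
      omega
    have hz : ∀ j, ∃ a, ∑ i, z i * (F i).1 j = 2 * a := fun j => by
      refine (ZMod.intCast_zmod_eq_zero_iff_dvd _ 2).1 ?_
      have := congrFun hc j
      simp only [Matrix.vecMul, dotProduct, Matrix.map_apply, U, Matrix.of_apply, eq_intCast,
        Pi.zero_apply] at this
      rw [← this, ← e.sum_comp]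
      simp [z]
    choose a ha using hz
    have hg : ∀ v, 2 * ez (a, -∑ j, a j * q j) v = ∑ i, z i * ez (F i) v := fun v => by
      simp only [lin, mul_sum]
      rw [sum_comm]
      simp only [← mul_assoc, ← sum_mul, ha]
      simp only [ez, mul_sub, sum_sub_distrib, mul_assoc, ← mul_sum]
      ring
    have hgp : ∀ i, 2 * ez (a, -∑ j, a j * q j) (p i) = z i * w i := fun i => by
      rw [hg, sum_eq_single i (fun j _ hj => by rw [hp, if_neg hj, mul_zero]) (by simp), hp,
        if_pos rfl]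
    have zl : ∀ x, z (Sum.inl x) = 0 := fun x => by
      have := hgp (Sum.inl x)
      have := z0 (Sum.inl x)
      have := z1 (Sum.inl x)
      simp only [w, Sum.elim_inl] at *
      omega
    refine cay (κ := Option α) (by rw [Fintype.card_option, hα])
      (fun o => o.elim (a, -∑ j, a j * q j) fun x => F (Sum.inl x)) (fun v hv => ?_)
      (fun v hv => ?_) ⟨q, qV, ?_⟩ ?_
    · rintro (_ | x)
      · have := hg v
        have := sum_nonneg fun i (_ : i ∈ univ) => mul_nonneg (z0 i) (h0 v hv i)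
        simp only [Option.elim_none]
        omega
      · exact h0 v hv _
    · have a1 := hg v
      have a2 := h1 v hv
      have a3 : ∑ b, z (Sum.inr b) * ez (F (Sum.inr b)) v ≤ ∑ b, ez (F (Sum.inr b)) v :=
        sum_le_sum fun b _ => by
          have := h0 v hv (Sum.inr b)
          have := z1 (Sum.inr b)
          nlinarith
      simp only [Fintype.sum_sum_type, zl, zero_mul, sum_const_zero, zero_add] at a1
      simp only [Fintype.sum_option, Option.elim_none, Option.elim_some]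
      omega
    · have a1 := hg q
      simp only [hq, mul_zero, sum_const_zero] at a1
      simp only [Fintype.sum_option, Option.elim_none, Option.elim_some, hq, sum_const_zero]
      omega
    · rintro (_ | x)
      · obtain ⟨j, hj⟩ := Function.ne_iff.1 c0
        obtain ⟨i, rfl⟩ := e.surjective j
        have a1 : z i ≠ 0 := fun h => hj ((ZMod.val_eq_zero _).1 (Int.natCast_eq_zero.1 h))
        have a2 := hgp i
        have a3 := z0 i
        have a4 : 0 < w i := by rcases i with x | x <;> simp [w]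
        have a5 : 0 < z i * w i := mul_pos (by omega) a4
        exact ⟨p i, pV i, by simp only [Option.elim_none]; omega⟩
      · exact h3 x
  · right
    have hUW : U * (Matrix.of fun j i => p (e.symm i) j - q j) =
        Matrix.diagonal fun i => w (e.symm i) := by
      ext i j
      simp only [Matrix.mul_apply, U, Matrix.of_apply, ← lin, hp, Matrix.diagonal_apply,
        EmbeddingLike.apply_eq_iff_eq]
      split_ifs with h
      · rw [h]
      · rfl
    have hdv : U.det ∣ ∏ i, w (e.symm i) := by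
      rw [← Matrix.det_diagonal, ← hUW, Matrix.det_mul]
      exact dvd_mul_right _ _
    have hco : IsCoprime U.det (∏ i, w (e.symm i)) := IsCoprime.prod_right fun i _ => by
      rcases e.symm i with x | x
      · exact isCoprime_one_right
      · exact ⟨1, -m, by simp only [w, Sum.elim_inr, hU]; ring⟩
    refine ⟨U, fun i => (F (e.symm i)).2, hco.isUnit_of_dvd hdv, img (fun i => F (e.symm i)) _
      (fun i => by split_ifs <;> norm_num) (fun v hv i => h0 v hv _) (fun v hv => ?_)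
      ⟨q, qV, fun i => hq _⟩ fun i => ⟨p (e.symm i), pV _, fun j => ?_⟩⟩
    · rw [← e.sum_comp]
      simp only [Equiv.symm_apply_apply, ew, Fintype.sum_sum_type, w, Sum.elim_inl, Sum.elim_inr,
        Int.cast_one, div_one, Int.cast_ofNat, ← sum_div]
      have : (2 : ℝ) * ∑ a, (ez (F (Sum.inl a)) v : ℝ) + ∑ b, (ez (F (Sum.inr b)) v : ℝ) ≤ 2 := by
        exact_mod_cast h1 v hv
      linarith
    · have := ew (e.symm i)
      rw [Equiv.apply_symm_apply] at this
      rw [hp, this, Pi.single_apply]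
      simp

end Pool.Agent.Work.MP_f2eb3d_co.Hedge
end

-- merged part: Pool.Agent.Work.MP_f2eb3d_co.Hedge.Comb
section
/-! The combinatorial core: weights `ν ≤ 1 / 2` of total deficit less than `1 / 2`. -/

namespace Pool.Agent.Work.MP_f2eb3d_co.Hedge

open Finset

theorem comb {ι : Type} [DecidableEq ι] (R : Finset ι) (hR : 3 ≤ R.card) (ν : ι → ℝ)
    (h0 : ∀ j ∈ R, 0 < ν j) (h2 : ∀ j ∈ R, ν j ≤ 1 / 2)
    (hs : ((R.card : ℝ) - 1) / 2 < ∑ j ∈ R, ν j) (Y : Set (ι → ℤ)) (hY0 : ∀ y ∈ Y, ∀ j, 0 ≤ y j)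
    (hY : ∀ y ∈ Y, ∑ j ∈ R, ν j * y j = 1)
    (hg : ∀ (z : ι → ℤ) (m : ℤ), (∀ y ∈ Y, 0 ≤ ∑ j ∈ R, (z j + m * ν j) * y j ∧
      ∑ j ∈ R, (z j + m * ν j) * y j < 2) →
      (∀ j ∈ R, z j + m * ν j = 0) ∨ ∀ j ∈ R, z j + m * ν j = ν j) :
    ∃ o ∈ R, (∀ y ∈ Y, ∑ j ∈ R.erase o, y j ≤ 2) ∧ (∀ j ∈ R.erase o, ∃ y ∈ Y, 2 ≤ y j) ∧
      ∃ y ∈ Y, ∀ j ∈ R.erase o, y j = 0 := by
  have hR' : (3 : ℝ) ≤ R.card := by exact_mod_cast hR
  have y0 : ∀ y ∈ Y, ∀ j, (0 : ℝ) ≤ y j := fun y hy j => by exact_mod_cast hY0 y hy j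
  have nn : ∀ y ∈ Y, ∀ j ∈ R, 0 ≤ ν j * y j := fun y hy j hj =>
    mul_nonneg (h0 j hj).le (y0 y hy j)
  have one : ∀ y ∈ Y, ∀ j ∈ R, ν j * y j ≤ 1 := fun y hy j hj =>
    (single_le_sum (nn y hy) hj).trans (hY y hy).le
  have two : ∀ y ∈ Y, ∀ j ∈ R, ∀ k ∈ R, j ≠ k → ν j * y j + ν k * y k ≤ 1 :=
    fun y hy j hj k hk hjk => (add_le_sum (nn y hy) hj hk hjk).trans (hY y hy).le
  have val : ∀ (z : ι → ℤ) (m : ℤ), ∀ y ∈ Y,
      ∑ j ∈ R, (z j + m * ν j) * y j = ∑ j ∈ R, (z j : ℝ) * y j + m := fun z m y hy => by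
    simp only [add_mul, mul_assoc, sum_add_distrib, ← mul_sum, hY y hy, mul_one]
  have sing : ∀ (γ : ι → ℝ) (a : ι), a ∈ R → (∀ j ∈ R, j ≠ a → γ j = 0) → ∀ y : ι → ℤ,
      ∑ j ∈ R, γ j * y j = γ a * y a := fun γ a ha h y =>
    sum_eq_single_of_mem a ha fun j hj hja => by rw [h j hj hja, zero_mul]
  have sing' : ∀ y ∈ Y, ∀ a ∈ R, (∀ j ∈ R, j ≠ a → y j = 0) → ν a * y a = 1 := fun y hy a ha h =>
    (sum_eq_single_of_mem a ha fun j hj hja => by rw [h j hj hja]; simp).symm.trans (hY y hy)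
  have F1 : ∀ j ∈ R, ∃ y ∈ Y, 2 ≤ y j := by
    intro j hj
    by_contra hc
    push Not at hc
    have h := hg (fun k => if k = j then 1 else 0) 0 fun y hy => by
      rw [sing _ j hj fun k _ hk => by simp [hk]]
      have : (y j : ℝ) < 2 := by exact_mod_cast hc y hy
      simpa using ⟨hY0 y hy j, this⟩
    rcases h with h | h
    · simpa using h j hj
    · have a1 := h j hj
      simp at a1
      linarith only [a1, h2 j hj]
  obtain ⟨o, ho, hmin⟩ := R.exists_min_image ν (card_pos.1 (by omega))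
  refine ⟨o, ho, ?_⟩
  have sp : ∀ f : ι → ℝ, ∑ j ∈ R, f j = f o + ∑ j ∈ R.erase o, f j := fun f =>
    (add_sum_erase R f ho).symm
  have hF : ∀ j ∈ R.erase o, ∃ y ∈ Y, 2 ≤ y j := fun j hj => F1 j (mem_of_mem_erase hj)
  rcases lt_or_ge (1 / 4 : ℝ) (ν o) with h4 | h4
  · have h := hg (fun _ => 1) (-2) fun y hy => by
      rw [val _ _ y hy]
      have a1 : ∑ j ∈ R, ν j * y j ≤ ∑ j ∈ R, 1 / 2 * (y j : ℝ) :=
        sum_le_sum fun j hj => mul_le_mul_of_nonneg_right (h2 j hj) (y0 y hy j)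
      have a2 : ∑ j ∈ R, ν o * (y j : ℝ) ≤ ∑ j ∈ R, ν j * y j :=
        sum_le_sum fun j hj => mul_le_mul_of_nonneg_right (hmin j hj) (y0 y hy j)
      rw [← mul_sum, hY y hy] at a1 a2
      simp only [Int.cast_one, one_mul]
      push_cast
      constructor
      · linarith only [a1]
      · nlinarith only [a2, h4]
    have hh : ∀ j ∈ R, ν j = 1 / 2 := by
      rcases h with h | h
      · intro j hj
        have := h j hj
        push_cast at this
        linarith
      · have e : ∑ j ∈ R, ν j = ∑ _j ∈ R, (1 / 3 : ℝ) := sum_congr rfl fun j hj => by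
          have := h j hj
          push_cast at this
          linarith
        rw [e, sum_const, nsmul_eq_mul] at hs
        linarith
    have hS : ∀ y ∈ Y, y o + ∑ j ∈ R.erase o, y j = 2 := fun y hy => by
      have e := hY y hy
      rw [sum_congr rfl fun j hj => by rw [hh j hj], ← mul_sum, sp] at e
      have e2 : (y o : ℝ) + ∑ j ∈ R.erase o, (y j : ℝ) = 2 := by linarith
      exact_mod_cast e2
    refine ⟨fun y hy => by have := hS y hy; have := hY0 y hy o; omega, hF, ?_⟩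
    obtain ⟨y, hy, h1⟩ := F1 o ho
    refine ⟨y, hy, (sum_eq_zero_iff_of_nonneg fun j _ => hY0 y hy j).1 ?_⟩
    have := hS y hy
    have := sum_nonneg fun j (_ : j ∈ R.erase o) => hY0 y hy j
    omega
  have hη := h0 o ho
  obtain ⟨D, hD⟩ : ∃ D, D = ∑ j ∈ R.erase o, (1 / 2 - ν j) := ⟨_, rfl⟩
  have hD1 : D < ν o := by
    rw [sp] at hs
    rw [hD, sum_sub_distrib, sum_const, card_erase_of_mem ho, nsmul_eq_mul,
      Nat.cast_sub (by omega)]
    push_cast
    linarith
  have dn : ∀ j ∈ R.erase o, 0 ≤ 1 / 2 - ν j := fun j hj =>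
    sub_nonneg.2 (h2 j (mem_of_mem_erase hj))
  have d1 : ∀ j ∈ R.erase o, 1 / 2 - ν j ≤ D := fun j hj => hD ▸ single_le_sum dn hj
  by_cases hl : ∀ y ∈ Y, ∑ j ∈ R.erase o, y j ≤ 2
  · refine ⟨hl, hF, ?_⟩
    by_contra hc
    push Not at hc
    have h := hg (fun k => if k = o then 0 else 1) (-1) fun y hy => by
      rw [val _ _ y hy, sp]
      have e : ∑ j ∈ R.erase o, (((if j = o then 0 else 1 : ℤ) : ℤ) : ℝ) * y j =
          ((∑ j ∈ R.erase o, y j : ℤ) : ℝ) := by
        push_cast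
        exact sum_congr rfl fun j hj => by simp [ne_of_mem_erase hj]
      obtain ⟨j, hj, hj0⟩ := hc y hy
      have a1 : y j ≤ ∑ j ∈ R.erase o, y j := single_le_sum (fun k _ => hY0 y hy k) hj
      have a2 := hY0 y hy j
      have a3 : (1 : ℝ) ≤ ((∑ j ∈ R.erase o, y j : ℤ) : ℝ) := by exact_mod_cast (by omega)
      have a4 : ((∑ j ∈ R.erase o, y j : ℤ) : ℝ) ≤ 2 := by exact_mod_cast hl y hy
      rw [e]
      simp only [if_true, Int.cast_zero, zero_mul, zero_add, Int.cast_neg, Int.cast_one]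
      constructor <;> linarith
    rcases h with h | h <;>
    · have := h o ho
      simp only [if_true, Int.cast_zero, Int.cast_neg, Int.cast_one] at this
      linarith
  exfalso
  push Not at hl
  obtain ⟨y, hy, hl⟩ := hl
  obtain ⟨a, ha, hmax⟩ := (R.erase o).exists_max_image y
    (card_pos.1 (by rw [card_erase_of_mem ho]; omega))
  have haR := mem_of_mem_erase ha
  have hao := ne_of_mem_erase ha
  have ya : y a = 3 := by
    have a1 : ∑ j ∈ R.erase o, (1 / 2 - ν j) * y j ≤ ∑ j ∈ R.erase o, (1 / 2 - ν j) * y a :=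
      sum_le_sum fun j hj => mul_le_mul_of_nonneg_left (by exact_mod_cast hmax j hj) (dn j hj)
    rw [← sum_mul, ← hD] at a1
    simp only [sub_mul, sum_sub_distrib, ← mul_sum] at a1
    have a2 := hY y hy
    rw [sp] at a2
    have a3 : (3 : ℝ) ≤ ∑ j ∈ R.erase o, (y j : ℝ) := by
      have : (3 : ℤ) ≤ ∑ j ∈ R.erase o, y j := by omega
      exact_mod_cast this
    have a4 := nn y hy o ho
    have a5 : (2 : ℝ) < y a := by
      by_contra hc
      have hD0 : 0 ≤ D := (dn a ha).trans (d1 a ha)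
      linarith only [mul_nonneg hD0 (sub_nonneg.2 (not_lt.1 hc)), a1, a2, a3, a4, hD1, h4]
    have a6 : (y a : ℝ) < 4 := by
      have b1 : 1 / 4 < ν a := by linarith only [d1 a ha, hD1, h4]
      nlinarith only [one y hy a haR, b1]
    have a7 : 2 < y a := by exact_mod_cast a5
    have a8 : y a < 4 := by exact_mod_cast a6
    omega
  have na : ν a = 1 / 3 := by
    have e := sing' y hy a haR fun j hj hja => by
      by_contra hc
      have a1 : (1 : ℝ) ≤ y j := by
        have := hY0 y hy j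
        exact_mod_cast (by omega : 1 ≤ y j)
      have a2 := two y hy a haR j hj hja.symm
      have a3 := d1 a ha
      have a4 := hmin j hj
      rw [ya] at a2
      push_cast at a2
      linarith only [mul_le_mul_of_nonneg_left a1 (h0 j hj).le, a2, a3, a4, hD1, h4]
    rw [ya] at e
    push_cast at e
    linarith
  have h6 : 1 / 6 < ν o := by
    have := d1 a ha
    linarith
  have nr : ∀ j ∈ R, j ≠ o → j ≠ a → ν j = 1 / 2 := by
    intro j hj hjo hja
    have a1 : 1 / 2 - ν j + (1 / 2 - ν a) ≤ D :=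
      hD ▸ add_le_sum dn (mem_erase.2 ⟨hjo, hj⟩) ha hja
    obtain ⟨u, hu, hu2⟩ := F1 j hj
    have a2 : (2 : ℝ) ≤ u j := by exact_mod_cast hu2
    have e := sing' u hu j hj fun k hk hkj => by
      by_contra hc
      have b1 : (1 : ℝ) ≤ u k := by
        have := hY0 u hu k
        exact_mod_cast (by omega : 1 ≤ u k)
      have b2 := two u hu j hj k hk hkj.symm
      have b4 := hmin k hk
      linarith only [mul_le_mul_of_nonneg_left b1 (h0 k hk).le,
        mul_le_mul_of_nonneg_left a2 (h0 j hj).le, b2, b4, a1, na, hD1, h4]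
    have a3 : (u j : ℝ) < 3 := by
      have b1 : 1 / 3 < ν j := by linarith only [a1, na, hD1, h4]
      nlinarith only [e, b1]
    have a4 : u j < 3 := by exact_mod_cast a3
    rw [show u j = 2 by omega] at e
    push_cast at e
    linarith
  rcases h4.lt_or_eq with h5 | h5
  · have hz : ∀ j ∈ R, j ≠ o →
        (((if j = o then -1 else if j = a then -2 else -3 : ℤ) : ℤ) : ℝ) +
          ((6 : ℤ) : ℝ) * ν j = 0 := by
      intro j hj hjo
      by_cases hja : j = a
      · rw [if_neg hjo, if_pos hja, hja, na]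
        norm_num
      · rw [if_neg hjo, if_neg hja, nr j hj hjo hja]
        norm_num
    have h := hg (fun j => if j = o then -1 else if j = a then -2 else -3) 6 fun u hu => by
      rw [sing _ o ho hz]
      simp only [if_true]
      push_cast
      have a1 := one u hu o ho
      have a2 := y0 u hu o
      refine ⟨mul_nonneg (by linarith) a2, ?_⟩
      rcases le_or_gt (u o) 4 with h7 | h7
      · have : (u o : ℝ) ≤ 4 := by exact_mod_cast h7
        nlinarith only [this, h5, h6, a2]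
      · have : (4 : ℝ) < u o := by exact_mod_cast h7
        linarith only [this, a1]
    rcases h with h | h
    · have := h o ho
      simp only [if_true] at this
      push_cast at this
      linarith
    · have := h a haR
      rw [hz a haR hao] at this
      linarith
  · have hz : ∀ j ∈ R, j ≠ a →
        (((if j = o then -1 else if j = a then -1 else -2 : ℤ) : ℤ) : ℝ) +
          ((4 : ℤ) : ℝ) * ν j = 0 := by
      intro j hj hja
      by_cases hjo : j = o
      · rw [if_pos hjo, hjo, h5]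
        norm_num
      · rw [if_neg hjo, if_neg hja, nr j hj hjo hja]
        norm_num
    have hza : (((if a = o then -1 else if a = a then -1 else -2 : ℤ) : ℤ) : ℝ) +
        ((4 : ℤ) : ℝ) * ν a = 1 / 3 := by
      rw [if_neg hao, if_pos rfl, na]
      norm_num
    have h := hg (fun j => if j = o then -1 else if j = a then -1 else -2) 4 fun u hu => by
      rw [sing _ a haR hz, hza]
      have a1 := one u hu a haR
      have a2 := y0 u hu a
      rw [na] at a1
      constructor <;> linarith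
    rcases h with h | h
    · have := h a haR
      rw [hza] at this
      linarith
    · have := h o ho
      rw [hz o ho hao.symm] at this
      linarith

end Pool.Agent.Work.MP_f2eb3d_co.Hedge
end

-- merged part: Pool.Agent.Work.MP_f2eb3d_co.Hedge.Fwd
section
/-! From a certificate to the Cayley structure or the pyramid. -/

namespace Pool.Agent.Work.MP_f2eb3d_co.Hedge

open Finset

variable {n : ℕ} {V : Finset (Fin n → ℤ)}

theorem fwd (hV : affineSpan ℝ (Hull V) = ⊤) {k : ℕ} (hk : k + 1 < n) (J : Finset (Fn n))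
    (ν : Fn n → ℝ) (hJ : ∀ f ∈ J, f.1 ≠ 0 ∧ ∀ v ∈ V, 0 ≤ ez f v) (h0 : ∀ f ∈ J, 0 < ν f)
    (h1 : ∀ x, ∑ f ∈ J, ν f * ev f x = 1) (hθ : ((n : ℝ) + k) / 2 < ∑ f ∈ J, ν f)
    (hl : ∀ c : Fn n → ℝ, (∀ x, ∑ f ∈ J, c f * ev f x = 0) → ∀ f ∈ J, c f = 0)
    (hc : ¬ IsCayley (k + 1) (Hull V)) :
    ∑ f ∈ J, ν f ≤ ((n : ℝ) + k + 1) / 2 ∧ LatticeEquiv (Hull V) (pyramid n k) := by
  classical
  have hs : ∀ v ∈ V, ∑ f ∈ J, ν f * ez f v = 1 := fun v _ => by simpa only [ev_cs] using h1 (cs v)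
  have LI : ∀ S ⊆ J, ∀ c : Fn n → ℝ, (∀ v ∈ V, ∑ f ∈ S, c f * ez f v = 0) →
      ∀ f ∈ S, c f = 0 := fun S hS c h f hf => by
    have := hl (fun f => if f ∈ S then c f else 0) (fun x => by
      simp only [ite_mul, zero_mul, sum_ite_mem, inter_eq_right.2 hS]
      rw [← sum_aff]
      exact hull_zero hV _ (fun v hv => by simpa only [sum_aff, ev_cs] using h v hv) x) f (hS hf)
    rwa [if_pos hf] at this
  have pos : ∀ f ∈ J, ∃ v ∈ V, 1 ≤ ez f v := fun f hf => exists_pos hV (hJ f hf).1 (hJ f hf).2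
  have z0 : ∀ v ∈ V, ∀ f ∈ J, 0 ≤ ez f v := fun v hv f hf => (hJ f hf).2 v hv
  have r0 : ∀ v ∈ V, ∀ f ∈ J, (0 : ℝ) ≤ ez f v := fun v hv f hf => by exact_mod_cast z0 v hv f hf
  have nn : ∀ v ∈ V, ∀ f ∈ J, 0 ≤ ν f * ez f v := fun v hv f hf =>
    mul_nonneg (h0 f hf).le (r0 v hv f hf)
  have n1 : ∀ f ∈ J, ν f ≤ 1 := fun f hf => by
    obtain ⟨v, hv, h⟩ := pos f hf
    have a1 := (single_le_sum (nn v hv) hf).trans (hs v hv).le
    have a2 : (1 : ℝ) ≤ ez f v := by exact_mod_cast h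
    have := h0 f hf
    nlinarith
  obtain ⟨T, hT⟩ : ∃ T, T = J.filter fun f => 1 / 2 < ν f := ⟨_, rfl⟩
  obtain ⟨R, hR⟩ : ∃ R, R = J.filter fun f => ¬ 1 / 2 < ν f := ⟨_, rfl⟩
  have TJ : T ⊆ J := hT ▸ filter_subset _ _
  have RJ : R ⊆ J := hR ▸ filter_subset _ _
  have Th : ∀ f ∈ T, 1 / 2 < ν f := fun f hf => by
    rw [hT, mem_filter] at hf
    exact hf.2
  have Rh : ∀ f ∈ R, ν f ≤ 1 / 2 := fun f hf => by
    rw [hR, mem_filter] at hf
    exact not_lt.1 hf.2
  have TR : ∀ f ∈ J, f ∈ T ∨ f ∈ R := fun f hf => by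
    rw [hT, hR, mem_filter, mem_filter]
    tauto
  have sp : ∀ g : Fn n → ℝ, ∑ f ∈ J, g f = ∑ f ∈ T, g f + ∑ f ∈ R, g f := fun g => by
    rw [hT, hR, sum_filter_add_sum_filter_not]
  have T1 : ∀ S ⊆ T, ∀ v ∈ V, ∑ f ∈ S, ez f v ≤ 1 := fun S hS v hv => by
    by_contra h
    have a1 : (2 : ℝ) ≤ ∑ f ∈ S, (ez f v : ℝ) := by
      exact_mod_cast (by omega : (2 : ℤ) ≤ ∑ f ∈ S, ez f v)
    have a2 : ∑ f ∈ S, ν f * ez f v ≤ 1 :=
      (sum_le_sum_of_subset_of_nonneg (hS.trans TJ) fun f hf _ => nn v hv f hf).trans (hs v hv).le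
    have a3 : ∀ f ∈ S, 0 ≤ (ν f - 1 / 2) * ez f v := fun f hf =>
      mul_nonneg (sub_nonneg.2 (Th f (hS hf)).le) (r0 v hv f (TJ (hS hf)))
    have a4 : ∑ f ∈ S, (ν f - 1 / 2) * ez f v = 0 := by
      refine le_antisymm ?_ (sum_nonneg a3)
      simp only [sub_mul, sum_sub_distrib, ← mul_sum]
      linarith
    have a5 : ∑ f ∈ S, (ez f v : ℝ) = 0 := sum_eq_zero fun f hf =>
      (mul_eq_zero.1 ((sum_eq_zero_iff_of_nonneg a3).1 a4 f hf)).resolve_left
        (sub_pos.2 (Th f (hS hf))).ne'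
    linarith
  have hk' : (k : ℝ) + 2 ≤ n := by exact_mod_cast hk
  have cT : T.card ≤ k := by
    by_contra h
    obtain ⟨S, hS, hcS⟩ := exists_subset_card_eq (show k + 1 ≤ T.card by omega)
    refine hc (cay (κ := S) (by rw [Fintype.card_coe, hcS]) (fun f => f.1)
      (fun v hv f => z0 v hv _ (TJ (hS f.2))) (fun v hv => ?_) ?_ fun f => pos _ (TJ (hS f.2)))
    · rw [sum_coe_sort S fun f => ez f v]
      exact T1 S hS v hv
    · by_contra h2
      push Not at h2
      have e := LI J Subset.rfl (fun f => (if f ∈ S then 1 else 0) - ν f) fun v hv => by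
        have a1 := h2 v hv
        rw [sum_coe_sort S fun f => ez f v] at a1
        have a2 : ∑ f ∈ S, (ez f v : ℝ) = 1 := by exact_mod_cast le_antisymm (T1 S hS v hv) a1
        simp only [sub_mul, sum_sub_distrib, ite_mul, one_mul, zero_mul, sum_ite_mem,
          inter_eq_right.2 (hS.trans TJ), a2, hs v hv, sub_self]
      have e2 : ∑ f ∈ J, ν f = ∑ f ∈ J, if f ∈ S then (1 : ℝ) else 0 :=
        sum_congr rfl fun f hf => (sub_eq_zero.1 (e f hf)).symm
      rw [e2, sum_ite_mem, inter_eq_right.2 (hS.trans TJ), sum_const, hcS, nsmul_eq_mul] at hθ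
      push_cast at hθ
      linarith
  have cJ : T.card + R.card ≤ n + 1 := by
    rw [hT, hR, card_filter_add_card_filter_not]
    exact card_le J id hl
  have dT : ∀ f ∈ T, 0 ≤ 1 - ν f := fun f hf => sub_nonneg.2 (n1 f (TJ hf))
  have dR : ∀ f ∈ R, 0 ≤ 1 / 2 - ν f := fun f hf => sub_nonneg.2 (Rh f hf)
  have eS : ∑ f ∈ J, ν f = T.card + R.card / 2 - ∑ f ∈ T, (1 - ν f) - ∑ f ∈ R, (1 / 2 - ν f) := by
    simp only [sp, sum_sub_distrib, sum_const, nsmul_eq_mul]
    ring
  have s1 := sum_nonneg dT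
  have s2 := sum_nonneg dR
  have c1 : n + k < 2 * T.card + R.card := by
    have : (n : ℝ) + k < 2 * T.card + R.card := by linarith
    exact_mod_cast this
  have cT' : T.card = k := by omega
  have cR : k + R.card = n + 1 := by omega
  have cR' : (R.card : ℝ) = n + 1 - k := by
    have : (k : ℝ) + R.card = n + 1 := by exact_mod_cast cR
    linarith
  rw [cT', cR'] at eS
  refine ⟨by linarith, ?_⟩
  have hTR : ∀ i ∈ T, ∀ v ∈ V, 1 ≤ ez i v → ∀ j ∈ R, ez j v = 0 := fun i hi v hv h j hj => by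
    by_contra h2
    have a1 : (1 : ℝ) ≤ ez i v := by exact_mod_cast h
    have a2 : (1 : ℝ) ≤ ez j v := by
      have := z0 v hv j (RJ hj)
      exact_mod_cast (by omega : 1 ≤ ez j v)
    have a3 := (add_le_sum (nn v hv) (TJ hi) (RJ hj) fun e => by
      have := Th i hi
      have := Rh j hj
      rw [e] at *
      linarith).trans (hs v hv).le
    have a4 := single_le_sum dT hi
    have a5 := single_le_sum dR hj
    have := h0 i (TJ hi)
    have := h0 j (RJ hj)
    nlinarith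
  have nT : ∀ i ∈ T, ν i = 1 := fun i hi => by
    obtain ⟨v, hv, h⟩ := pos i (TJ hi)
    have a1 := T1 T Subset.rfl v hv
    have a2 := single_le_sum (fun f hf => z0 v hv f (TJ hf)) hi
    have e := hs v hv
    rw [sum_eq_single_of_mem i (TJ hi) fun j hj hji => by
      rcases TR j hj with h2 | h2
      · have := add_le_sum (fun f hf => z0 v hv f (TJ hf)) h2 hi hji
        have := z0 v hv j hj
        rw [show ez j v = 0 by omega, Int.cast_zero, mul_zero]
      · rw [hTR i hi v hv h j h2, Int.cast_zero, mul_zero], show ez i v = 1 by omega] at e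
    simpa using e
  have eR : ∀ v ∈ V, ∑ f ∈ R, ν f * ez f v = 1 - ∑ f ∈ T, (ez f v : ℝ) := fun v hv => by
    have := hs v hv
    rw [sp, sum_congr rfl fun f hf => by rw [nT f hf, one_mul]] at this
    linarith
  have dich : ∀ v ∈ V, (∀ i ∈ T, ez i v = 0) ∨ ∀ j ∈ R, ez j v = 0 := fun v hv => by
    by_cases h : ∀ i ∈ T, ez i v = 0
    · exact Or.inl h
    · push Not at h
      obtain ⟨i, hi, h⟩ := h
      have := z0 v hv i (TJ hi)
      exact Or.inr (hTR i hi v hv (by omega))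
  let y : (Fin n → ℤ) → Fn n → ℤ := fun v f => if f ∈ R then ez f v else 0
  have yR : ∀ v, ∀ f ∈ R, y v f = ez f v := fun v f hf => if_pos hf
  have yS : ∀ v (γ : Fn n → ℝ), ∑ f ∈ R, γ f * y v f = ∑ f ∈ R, γ f * ez f v := fun v γ =>
    sum_congr rfl fun f hf => by rw [yR v f hf]
  obtain ⟨o, ho, g1, g2, g3⟩ := comb R (by omega) ν (fun f hf => h0 f (RJ hf)) Rh (by
      rw [sp, sum_congr rfl nT, sum_const, cT', nsmul_eq_mul] at hθ
      rw [cR']
      linarith) (y '' {v | v ∈ V ∧ ∀ i ∈ T, ez i v = 0})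
    (by
      rintro _ ⟨v, hv, rfl⟩ f
      by_cases hf : f ∈ R
      · rw [yR v f hf]
        exact z0 v hv.1 f (RJ hf)
      · exact (if_neg hf).ge)
    (by
      rintro _ ⟨v, hv, rfl⟩
      rw [yS, eR v hv.1, sum_eq_zero fun f hf => by rw [hv.2 f hf, Int.cast_zero], sub_zero])
    (by
      intro z m hb
      by_contra hn
      rw [not_or] at hn
      obtain ⟨g, hg⟩ : ∃ g : Fn n, ∀ v ∈ V,
          (ez g v : ℝ) = ∑ f ∈ R, (z f + m * ν f) * ez f v := by
        refine ⟨∑ f ∈ R, z f • f + m • ((0, 1) - ∑ f ∈ T, f), fun v hv => ?_⟩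
        have e1 : ez ((0, 1) : Fn n) v = 1 := by simp [ez]
        rw [← ezl_apply]
        simp only [map_add, map_sum, map_smul, map_sub, ezl_apply, smul_eq_mul, e1, add_mul,
          mul_assoc, sum_add_distrib, ← mul_sum, eR v hv]
        push_cast
        rfl
      have b1 : ∀ v ∈ V, 0 ≤ ez g v ∧ ez g v + ∑ f ∈ T, ez f v ≤ 1 := fun v hv => by
        rcases dich v hv with h | h
        · have := hb _ ⟨v, ⟨hv, h⟩, rfl⟩
          rw [yS, ← hg v hv] at this
          have a1 : 0 ≤ ez g v := by exact_mod_cast this.1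
          have a2 : ez g v < 2 := by exact_mod_cast this.2
          rw [sum_eq_zero h]
          omega
        · have a1 := hg v hv
          rw [sum_eq_zero fun f hf => by rw [h f hf, Int.cast_zero, mul_zero]] at a1
          have a2 : ez g v = 0 := by exact_mod_cast a1
          have := T1 T Subset.rfl v hv
          omega
      refine hc (cay (κ := Option T) (by rw [Fintype.card_option, Fintype.card_coe, cT'])
        (fun o => o.elim g fun f => f.1) (fun v hv => ?_) (fun v hv => ?_) ?_ ?_)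
      · rintro (_ | f)
        · exact (b1 v hv).1
        · exact z0 v hv _ (TJ f.2)
      · simp only [Fintype.sum_option, Option.elim_none, Option.elim_some]
        rw [sum_coe_sort T fun f => ez f v]
        exact (b1 v hv).2
      · by_contra h2
        push Not at h2
        refine hn.2 fun f hf => sub_eq_zero.1 (LI R RJ (fun f => z f + m * ν f - ν f)
          (fun v hv => ?_) f hf)
        have a1 := h2 v hv
        simp only [Fintype.sum_option, Option.elim_none, Option.elim_some] at a1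
        rw [sum_coe_sort T fun f => ez f v] at a1
        have a2 : (ez g v : ℝ) + ∑ f ∈ T, (ez f v : ℝ) = 1 := by
          exact_mod_cast le_antisymm (b1 v hv).2 a1
        simp only [sub_mul, sum_sub_distrib, ← hg v hv, eR v hv]
        linarith
      · rintro (_ | f)
        · by_contra h2
          push Not at h2
          refine hn.1 (LI R RJ (fun f => z f + m * ν f) fun v hv => ?_)
          have a1 := h2 v hv
          have a2 := (b1 v hv).1
          simp only [Option.elim_none] at a1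
          rw [← hg v hv, show ez g v = 0 by omega, Int.cast_zero]
        · exact pos _ (TJ f.2))
  refine (parity (α := T) (β := R.erase o) (by rw [Fintype.card_coe, cT'])
    (by rw [Fintype.card_coe, card_erase_of_mem ho]; omega)
    (Sum.elim (fun f => f.1) fun f => f.1) (fun v hv => ?_) (fun v hv => ?_) ?_
    (fun f => pos _ (TJ f.2)) fun f => ?_).resolve_left hc
  · rintro (f | f)
    · exact z0 v hv _ (TJ f.2)
    · exact z0 v hv _ (RJ (mem_of_mem_erase f.2))
  · simp only [Sum.elim_inl, Sum.elim_inr]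
    rw [sum_coe_sort T fun f => ez f v, sum_coe_sort (R.erase o) fun f => ez f v]
    rcases dich v hv with h | h
    · have := g1 _ ⟨v, ⟨hv, h⟩, rfl⟩
      rw [sum_congr rfl fun f hf => yR v f (mem_of_mem_erase hf)] at this
      rw [sum_eq_zero h]
      omega
    · have := T1 T Subset.rfl v hv
      rw [sum_eq_zero fun f hf => h f (mem_of_mem_erase hf)]
      omega
  · obtain ⟨_, ⟨v, hv, rfl⟩, h⟩ := g3
    refine ⟨v, hv.1, ?_⟩
    rintro (f | f)
    · exact hv.2 _ f.2
    · exact (yR v _ (mem_of_mem_erase f.2)).symm.trans (h _ f.2)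
  · obtain ⟨_, ⟨v, hv, rfl⟩, h⟩ := g2 _ f.2
    exact ⟨v, hv.1, h.trans (yR v _ (mem_of_mem_erase f.2)).le⟩

/-- An empty Fine adjoint polytope at a small level. -/
theorem fwd' (hV : affineSpan ℝ (Hull V) = ⊤) {k : ℕ} (hk : k + 1 < n)
    (hc : ¬ IsCayley (k + 1) (Hull V)) {s θ : ℝ} (hs : 0 ≤ s) (hθ : ((n : ℝ) + k) / 2 ≤ θ)
    (h : s < θ⁻¹) (he : ¬ (fineAdjoint (Hull V) s).Nonempty) :
    θ < ((n : ℝ) + k + 1) / 2 ∧ LatticeEquiv (Hull V) (pyramid n k) := by
  have hn : (0 : ℝ) < n := by exact_mod_cast (by omega : 0 < n)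
  obtain ⟨J, ν, a1, a2, a3, a4, a5⟩ := cert hV hs (lt_of_lt_of_le (by positivity) hθ) h he
  obtain ⟨b1, b2⟩ := fwd hV hk J ν a1 a2 a3 (hθ.trans_lt a4) a5 hc
  exact ⟨a4.trans_le b1, b2⟩

end Pool.Agent.Work.MP_f2eb3d_co.Hedge
end

-- merged part: Pool.Agent.Work.MP_f2eb3d_co.Hedge.Rev
section
/-! The pyramids are the exceptions. -/

namespace Pool.Agent.Work.MP_f2eb3d_co.Hedge

open Finset Filter Topology

variable {n : ℕ}

theorem amap_comp {l m : ℕ} (A : Matrix (Fin l) (Fin m) ℤ) (a : Fin l → ℤ)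
    (B : Matrix (Fin m) (Fin n) ℤ) (b : Fin m → ℤ) (x : Fin n → ℝ) :
    amap A a (amap B b x) = amap (A * B) (A.mulVec b + a) x := by
  funext i
  simp only [amap, pairing, Matrix.mul_apply, Matrix.mulVec, dotProduct, Pi.add_apply, mul_add,
    sum_add_distrib, mul_sum]
  push_cast
  simp only [sum_mul, mul_assoc]
  rw [sum_comm, add_assoc]

theorem amap_one (x : Fin n → ℝ) : amap 1 0 x = x := by
  funext i
  simp [amap, pairing, Matrix.one_apply]

theorem pyr_not {k : ℕ} (hk : k ≤ n) : ¬ IsCayley (k + 1) (pyramid n k) := by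
  rintro ⟨A, a, h⟩
  have mem : ∀ x ∈ pyramid n k, ∀ j, 0 ≤ amap A a x j ∧ amap A a x j ≤ 1 := fun x hx j => by
    have := (mem_axis fun _ => one_pos).1 (h ▸ Set.mem_image_of_mem (amap A a) hx)
    simp only [div_one] at this
    exact ⟨this.1 j, (single_le_sum (fun i _ => this.1 i) (mem_univ j)).trans this.2⟩
  have e0 : ∀ j, amap A a 0 j = a j := fun j => by simp [amap, pairing]
  have e1 : ∀ i (r : ℝ) j, amap A a (Pi.single i r) j = A j i * r + a j := fun i r j => by
    simp only [amap, pairing]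
    rw [sum_eq_single i (fun l _ hl => by simp [hl]) (by simp)]
    simp
  let p : Option (Fin k) → Fin (k + 1) → ℝ := fun o j =>
    o.elim 0 (fun i => (A j (Fin.castLE hk i) : ℝ)) + a j
  have sub : axisSimplex (fun _ : Fin (k + 1) => 1) ⊆ convexHull ℝ (Set.range p) := by
    rw [← h, ← amapA_coe, pyramid, axisSimplex, AffineMap.image_convexHull, amapA_coe]
    refine convexHull_mono ?_
    rintro _ ⟨_, rfl | ⟨i, rfl⟩, rfl⟩
    · exact ⟨none, funext fun j => by simp [p, e0]⟩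
    · by_cases hi : (i : ℕ) < k
      · exact ⟨some ⟨i, hi⟩, funext fun j => by simp [p, e1, hi]⟩
      · refine ⟨none, funext fun j => ?_⟩
        have a1 := mem 0 (subset_convexHull ℝ _ (Set.mem_insert _ _)) j
        have a2 := mem _ (subset_convexHull ℝ _ (Set.mem_insert_of_mem _ ⟨i, rfl⟩)) j
        simp only [e0, e1, if_neg hi] at a1 a2
        have a3 : 0 ≤ a j ∧ a j ≤ 1 := by exact_mod_cast a1
        have a4 : 0 ≤ A j i * 2 + a j ∧ A j i * 2 + a j ≤ 1 := by exact_mod_cast a2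
        simp [p, e1, show A j i = 0 by omega]
  have top : vectorSpan ℝ (Set.range p) = ⊤ := by
    rw [eq_top_iff, ← (Pi.basisFun ℝ (Fin (k + 1))).span_eq, Submodule.span_le]
    rintro _ ⟨j, rfl⟩
    have := AffineSubspace.vsub_mem_direction
      (convexHull_subset_affineSpan _ (sub (subset_convexHull ℝ _
        (Set.mem_insert_of_mem _ ⟨j, rfl⟩))))
      (convexHull_subset_affineSpan _ (sub (subset_convexHull ℝ _ (Set.mem_insert _ _))))
    simpa [direction_affineSpan] using this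
  have := finrank_vectorSpan_range_le ℝ p (n := k) (by simp)
  rw [top] at this
  simp at this

theorem gcd_one (a z : Fin n → ℤ) (h : ∑ j, a j * z j = 1) : univ.gcd a = 1 :=
  Int.eq_one_of_dvd_one (Int.nonneg_of_normalize_eq_self Finset.normalize_gcd)
    (h ▸ dvd_sum fun _ hj => (gcd_dvd hj).mul_right _)

theorem facet_ne {a : Fin n → ℤ} (h : univ.gcd a = 1) : a ≠ 0 := fun h0 =>
  zero_ne_one ((Finset.gcd_eq_zero_iff.2 fun i _ => congrFun h0 i).symm.trans h)

theorem facet {P : Set (Fin n → ℝ)} {ι : Type} [Fintype ι] (F : ι → Fn n)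
    (hP : ∀ x, x ∈ P ↔ ∀ i, 0 ≤ ev (F i) x) (o : ι) (hg : univ.gcd (F o).1 = 1) (x : Fin n → ℝ)
    (h0 : ev (F o) x = 0) (h1 : ∀ i, i ≠ o → 0 < ev (F i) x) :
    IsFacetIneq P (F o).1 (-(F o).2) := by
  have key : ∀ y, pairing (F o).1 y = ((-(F o).2 : ℤ) : ℝ) ↔ ev (F o) y = 0 := fun y => by
    simp only [ev, Int.cast_neg]
    constructor <;> intro h <;> linarith
  have mem : ∀ y, ev (F o) y = 0 → (∀ i, i ≠ o → 0 < ev (F i) y) →
      y ∈ {x ∈ P | pairing (F o).1 x = ((-(F o).2 : ℤ) : ℝ)} := fun y g0 g1 =>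
    ⟨(hP y).2 fun i => by
      by_cases hi : i = o
      · rw [hi, g0]
      · exact (g1 i hi).le, (key y).2 g0⟩
  refine ⟨hg, fun y hy => ?_, ⟨x, mem x h0 h1⟩, ?_⟩
  · have := (hP y).1 hy o
    simp only [ev, Int.cast_neg] at this ⊢
    linarith
  have e : vectorSpan ℝ {x ∈ P | pairing (F o).1 x = ((-(F o).2 : ℤ) : ℝ)} =
      LinearMap.ker (lin (F o).1) := by
    refine le_antisymm (Submodule.span_le.2 ?_) fun u hu => ?_
    · rintro _ ⟨y, hy, z, hz, rfl⟩
      have : lin (F o).1 (y - z) = 0 := by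
        rw [map_sub]
        exact sub_eq_zero.2 (hy.2.trans hz.2.symm)
      exact this
    · have ev1 : ∀ᶠ ε : ℝ in 𝓝 0, ∀ i, i ≠ o → 0 < ev (F i) (x + ε • u) := by
        refine eventually_all.2 fun i => ?_
        by_cases hi : i = o
        · exact Eventually.of_forall fun _ h => absurd hi h
        · have c : Continuous fun ε : ℝ => ev (F i) (x + ε • u) :=
            (ev_cont _).comp (by fun_prop)
          filter_upwards [c.continuousAt.eventually (lt_mem_nhds
            (by simpa using h1 i hi : (0 : ℝ) < ev (F i) (x + (0 : ℝ) • u)))] with ε h _ using h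
      obtain ⟨ε, g1, g2⟩ := ((eventually_nhdsWithin_of_eventually_nhds ev1).and
        (self_mem_nhdsWithin (a := (0 : ℝ)) (s := {0}ᶜ))).exists
      have g3 : ev (F o) (x + ε • u) = 0 := by
        have a1 : lin (F o).1 (x + ε • u) = lin (F o).1 x := by
          rw [map_add, map_smul, LinearMap.mem_ker.1 hu, smul_zero, add_zero]
        exact (congrArg (· + ((F o).2 : ℝ)) a1).trans h0
      have g4 := Submodule.smul_mem _ ε⁻¹ (vsub_mem_vectorSpan ℝ (mem _ g3 g1) (mem x h0 h1))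
      rwa [vsub_eq_sub, add_sub_cancel_left, inv_smul_smul₀ g2] at g4
  rw [e, Module.Dual.finrank_ker_add_one_of_ne_zero, Module.finrank_fin_fun]
  intro h
  refine facet_ne hg (funext fun i => ?_)
  have a1 : pairing (F o).1 (Pi.single i 1) = 0 := LinearMap.congr_fun h _
  rw [pairing, sum_eq_single i (fun j _ hj => by simp [hj]) (by simp)] at a1
  simpa using a1

theorem rev {P : Set (Fin n → ℝ)} {k : ℕ} (hk : k < n) (h : LatticeEquiv P (pyramid n k)) :
    ¬ IsCayley (k + 1) P ∧ ∀ s, (adjoint P s).Nonempty → s * ((n : ℝ) + k + 1) ≤ 2 := by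
  obtain ⟨U, c, hU, h⟩ := h
  have i1 : ∀ x, amap U⁻¹ (-U⁻¹.mulVec c) (amap U c x) = x := fun x => by
    rw [amap_comp, Matrix.nonsing_inv_mul _ hU, add_neg_cancel, amap_one]
  have i2 : ∀ y, amap U c (amap U⁻¹ (-U⁻¹.mulVec c) y) = y := fun y => by
    rw [amap_comp, Matrix.mulVec_neg, Matrix.mulVec_mulVec, Matrix.mul_nonsing_inv _ hU,
      Matrix.one_mulVec, neg_add_cancel, amap_one]
  constructor
  · rintro ⟨A, a, hA⟩
    refine pyr_not hk.le ⟨A * U⁻¹, A.mulVec (-U⁻¹.mulVec c) + a, ?_⟩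
    rw [← h, ← hA, Set.image_image]
    exact Set.image_congr fun x _ => by rw [← amap_comp, i1]
  let w : Fin n → ℤ := fun i => if (i : ℕ) < k then 2 else 1
  let F : Option (Fin n) → Fn n := fun o =>
    o.elim (fun j => -∑ i, w i * U i j, 2 - ∑ i, w i * c i) fun i => (U i, c i)
  have es : ∀ i x, ev (F (some i)) x = amap U c x i := fun _ _ => rfl
  have en : ∀ x, ev (F none) x = 2 - ∑ i, w i * amap U c x i := fun x => by
    simp only [F, Option.elim_none, ev, amap, pairing, mul_add, sum_add_distrib, mul_sum]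
    push_cast
    simp only [neg_mul, sum_neg_distrib, sum_mul, mul_assoc]
    rw [sum_comm]
    ring
  have ew : ∀ (i : Fin n) (y : ℝ),
      (w i : ℝ) * y = 2 * (y / if (i : ℕ) < k then 1 else 2) := fun i y => by
    simp only [w]
    split_ifs <;> push_cast <;> ring
  have hr : ∀ i : Fin n, (0 : ℝ) < if (i : ℕ) < k then 1 else 2 := fun i => by
    split_ifs <;> norm_num
  have hP : ∀ x, x ∈ P ↔ ∀ i, 0 ≤ ev (F i) x := fun x => by
    have e : x ∈ P ↔ amap U c x ∈ pyramid n k := by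
      rw [← h]
      exact (Function.LeftInverse.injective i1).mem_set_image.symm
    rw [e, pyramid, mem_axis hr, Option.forall, en, and_comm]
    simp only [es, ew, ← mul_sum]
    exact and_congr_left' ⟨fun _ => by linarith, fun _ => by linarith⟩
  have hn : (0 : ℝ) < n := by exact_mod_cast (by omega : 0 < n)
  have w2 : ∀ i, (1 : ℝ) ≤ w i ∧ (w i : ℝ) ≤ 2 := fun i => by
    simp only [w]
    split_ifs <;> norm_num
  have hF : ∀ o, IsFacetIneq P (F o).1 (-(F o).2) := by
    rintro (_ | i)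
    · refine facet F hP none (gcd_one _ (fun j => -U⁻¹ j ⟨k, hk⟩) ?_)
        (amap U⁻¹ (-U⁻¹.mulVec c) fun i => (if (i : ℕ) < k then 1 else 2) / n) ?_ ?_
      · simp only [F, Option.elim_none, neg_mul_neg, sum_mul, mul_assoc]
        rw [sum_comm]
        simp only [← mul_sum, ← Matrix.mul_apply, Matrix.mul_nonsing_inv _ hU, Matrix.one_apply]
        simp [w]
      · rw [en, i2]
        simp only [ew, div_div_cancel_left' (hr _).ne', sum_const, card_univ, Fintype.card_fin,
          nsmul_eq_mul]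
        field_simp
        ring
      · rintro (_ | j) hj
        · exact absurd rfl hj
        · rw [es, i2]
          exact div_pos (hr j) hn
    · refine facet F hP (some i) (gcd_one _ (fun j => U⁻¹ j i) ?_)
        (amap U⁻¹ (-U⁻¹.mulVec c) fun j => if j = i then 0 else 1 / (n + 1)) ?_ ?_
      · simp only [F, Option.elim_some, ← Matrix.mul_apply, Matrix.mul_nonsing_inv _ hU,
          Matrix.one_apply_eq]
      · rw [es, i2, if_pos rfl]
      · rintro (_ | j) hj
        · rw [en, i2]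
          have a1 : ∑ j, (w j : ℝ) * (if j = i then 0 else 1 / ((n : ℝ) + 1)) ≤
              ∑ _j : Fin n, 2 * (1 / ((n : ℝ) + 1)) := sum_le_sum fun j _ => by
            have := w2 j
            have : 0 < 1 / ((n : ℝ) + 1) := by positivity
            split_ifs <;> nlinarith
          rw [sum_const, card_univ, Fintype.card_fin, nsmul_eq_mul] at a1
          have a2 : (n : ℝ) * (2 * (1 / ((n : ℝ) + 1))) < 2 := by
            field_simp
            linarith
          linarith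
        · rw [es, i2, if_neg fun e => hj (congrArg some e)]
          positivity
  rintro s ⟨x, hx⟩
  have a1 : ∀ o, s ≤ ev (F o) x := fun o => by
    simpa [ev] using hx _ _ (hF o)
  have a2 : ∑ i, (w i : ℝ) * s ≤ ∑ i, w i * amap U c x i := sum_le_sum fun i _ =>
    mul_le_mul_of_nonneg_left (a1 (some i)) (zero_le_one.trans (w2 i).1)
  have a3 : ∑ i, (w i : ℝ) = n + k := by
    have e : ∀ i, (w i : ℝ) = 1 + if (i : ℕ) < k then 1 else 0 := fun i => by
      simp only [w]
      split_ifs <;> norm_num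
    simp [e, sum_add_distrib, Fin.card_filter_val_lt, hk.le]
  have a4 := a1 none
  rw [← sum_mul, a3] at a2
  rw [en] at a4
  linarith

theorem tfae {V : Finset (Fin n → ℤ)} (hV : affineSpan ℝ (Hull V) = ⊤) {k : ℕ} (hk : k + 1 < n)
    (adj : ℝ → Set (Fin n → ℝ)) (h1 : ∀ s, fineAdjoint (Hull V) s ⊆ adj s)
    (h2 : ∀ s, adj s ⊆ adjoint (Hull V) s) :
    List.TFAE [((n : ℝ) + k) / 2 < (sSup {s : ℝ | 0 < s ∧ (adj s).Nonempty})⁻¹ ∧
        ¬ IsCayley (k + 1) (Hull V),
      (sSup {s : ℝ | 0 < s ∧ (adj s).Nonempty})⁻¹ = ((n : ℝ) + k + 1) / 2 ∧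
        ¬ IsCayley (k + 1) (Hull V),
      LatticeEquiv (Hull V) (pyramid n k)] := by
  have hn : (0 : ℝ) < n := by exact_mod_cast (by omega : 0 < n)
  have h0 : (0 : ℝ) < ((n : ℝ) + k) / 2 := by positivity
  tfae_have 2 → 1 := fun h => ⟨by rw [h.1]; linarith, h.2⟩
  tfae_have 1 → 3 := by
    rintro ⟨a1, a2⟩
    have a3 := inv_pos.1 (h0.trans a1)
    have a4 : BddAbove {s : ℝ | 0 < s ∧ (adj s).Nonempty} := by
      by_contra hb
      rw [Real.sSup_of_not_bddAbove hb] at a3
      exact lt_irrefl _ a3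
    obtain ⟨s, s1, s2⟩ := exists_between ((lt_inv_comm₀ h0 a3).1 a1)
    exact (fwd' hV hk a2 (a3.trans s1).le le_rfl s2 fun he =>
      (le_csSup a4 ⟨a3.trans s1, he.mono (h1 s)⟩).not_gt s1).2
  tfae_have 3 → 2 := by
    intro h
    obtain ⟨a1, a2⟩ := rev (by omega) h
    have hτ : (0 : ℝ) < (((n : ℝ) + k + 1) / 2)⁻¹ := by positivity
    have a3 : ∀ s, 0 < s → s < (((n : ℝ) + k + 1) / 2)⁻¹ →
        s ∈ {s : ℝ | 0 < s ∧ (adj s).Nonempty} := fun s s1 s2 => ⟨s1, by
      by_contra he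
      exact lt_irrefl _ (fwd' hV hk a1 s1.le (by linarith) s2 fun h => he (h.mono (h1 s))).1⟩
    refine ⟨inv_eq_iff_eq_inv.2 (csSup_eq_of_forall_le_of_forall_lt_exists_gt
      ⟨_, a3 _ (half_pos hτ) (half_lt_self hτ)⟩ (fun s hs => ?_) fun u hu => ?_), a1⟩
    · rw [inv_div, le_div_iff₀ (by positivity)]
      exact a2 s (hs.2.mono (h2 s))
    · obtain ⟨s, s1, s2⟩ := exists_between (max_lt hu hτ)
      exact ⟨s, a3 s ((le_max_right _ _).trans_lt s1) s2, (le_max_left _ _).trans_lt s1⟩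
  tfae_finish

theorem fine_sub (P : Set (Fin n → ℝ)) (s : ℝ) : fineAdjoint P s ⊆ adjoint P s :=
  fun _ hx a b h => hx a b (facet_ne h.1) h.2.1

end Pool.Agent.Work.MP_f2eb3d_co.Hedge
end
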